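import Mathlib
import Pool.Agent.Results.MP_b0a983_gt.ThinSineStrip
import Pool.Agent.Helper430.TS.Dim
import Pool.Agent.Helper430.TS.Data
import Pool.Agent.Helper430.TS.Cells
import Pool.Agent.Helper430.TS.Planar

set_option autoImplicit false
set_option maxHeartbeats 400000
open Set Filter Topology

namespace Pool.Agent.Results.MP_b0a983_gt.ForcedCells

open Pool.Agent.Results.MP_b0a983_gt.ThinSineStrip (IndLT LocalIndLE TwoDimensionalAt)
open Pool.Agent.Helper430.TS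

/-- the data used for the construction: corners `p n`, third corners `c n`, bad coordinates `B` -/
structure Data (p c : ℕ → ℝ × ℝ) (B : Set ℝ) : Prop where
  count : B.Countable
  hp : ∀ n, (p n).1 ∈ Icc (0 : ℝ) 1 ∧ (p n).2 ∈ Icc (0 : ℝ) 1
  hc : ∀ n, (c n).1 ∈ Icc (0 : ℝ) 1 ∧ (c n).2 ∈ Icc (0 : ℝ) 1
  flat : ∀ n, ((p n).1 ∈ B ∧ (p (n + 1)).1 = (p n).1 ∧ (c n).1 = (p n).1 ∧
        2 * (c n).2 ≠ (p n).2 + (p (n + 1)).2) ∨
      ((p n).2 ∈ B ∧ (p (n + 1)).2 = (p n).2 ∧ (c n).2 = (p n).2 ∧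
        2 * (c n).1 ≠ (p n).1 + (p (n + 1)).1)
  cluster : ∀ x : ℝ × ℝ, x.1 ∈ Icc (0 : ℝ) 1 → x.2 ∈ Icc (0 : ℝ) 1 → ∀ ε > 0, ∀ N : ℕ,
      ∃ n, N ≤ n ∧ dist (p n) x < ε

theorem pt_inj {p c : ℕ → ℝ × ℝ} {B : Set ℝ} (h : Data p c B) (n : ℕ) (l m m' : ℝ)
    (he : pt p c n l m = pt p c n l m') : m = m' := by
  have e1 : (l - m) * (p n).1 + (1 - l - m) * (p (n + 1)).1 + 2 * m * (c n).1 =
    (l - m') * (p n).1 + (1 - l - m') * (p (n + 1)).1 + 2 * m' * (c n).1 := congrArg Prod.fst he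
  have e2 : (l - m) * (p n).2 + (1 - l - m) * (p (n + 1)).2 + 2 * m * (c n).2 =
    (l - m') * (p n).2 + (1 - l - m') * (p (n + 1)).2 + 2 * m' * (c n).2 := congrArg Prod.snd he
  rcases h.flat n with ⟨_, _, _, h4⟩ | ⟨_, _, _, h4⟩
  · have h5 : 2 * (c n).2 - ((p n).2 + (p (n + 1)).2) ≠ 0 := sub_ne_zero.2 h4
    apply mul_right_cancel₀ h5
    linarith
  · have h5 : 2 * (c n).1 - ((p n).1 + (p (n + 1)).1) ≠ 0 := sub_ne_zero.2 h4
    apply mul_right_cancel₀ h5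
    linarith

theorem X_flat {p c : ℕ → ℝ × ℝ} {B : Set ℝ} (h : Data p c B) (T : Set ℝ) (P : ℝ × ℝ × ℝ)
    (hP : P ∈ X p c T) : P.1 ∈ T ∨ P.2.1 ∈ B ∨ P.2.2 ∈ B := by
  obtain ⟨_, _, h3⟩ := hP
  rcases h3 with h3 | ⟨n, l, m, h1, h2, h3, h4⟩
  · exact Or.inl h3
  · right
    have e : P.2 = pt p c n l m := congrArg Prod.snd h4
    have e1 : P.2.1 = (l - m) * (p n).1 + (1 - l - m) * (p (n + 1)).1 + 2 * m * (c n).1 :=
      congrArg Prod.fst e
    have e2 : P.2.2 = (l - m) * (p n).2 + (1 - l - m) * (p (n + 1)).2 + 2 * m * (c n).2 :=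
      congrArg Prod.snd e
    rcases h.flat n with ⟨g1, g2, g3, _⟩ | ⟨g1, g2, g3, _⟩
    · left
      rw [e1, g2, g3]
      have : (l - m) * (p n).1 + (1 - l - m) * (p n).1 + 2 * m * (p n).1 = (p n).1 := by ring
      rw [this]; exact g1
    · right
      rw [e2, g2, g3]
      have : (l - m) * (p n).2 + (1 - l - m) * (p n).2 + 2 * m * (p n).2 = (p n).2 := by ring
      rw [this]; exact g1

theorem sub_two {p c : ℕ → ℝ × ℝ} {B : Set ℝ} (h : Data p c B) (T : Set ℝ)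
    (hint : interior T = ∅) (K : Set (ℝ × ℝ × ℝ)) (hK : K ⊆ X p c T) (x : K) :
    LocalIndLE 2 x := by
  apply upper K Subtype.val Topology.IsEmbedding.subtypeVal T B
    (interior_eq_empty_iff_dense_compl.1 hint) (h.count.dense_compl ℝ)
  intro z
  exact X_flat h T z.1 (hK z.2)

/-- points over `T` lie on a square -/
theorem lower_T {p c : ℕ → ℝ × ℝ} (T : Set ℝ) (K : Set (ℝ × ℝ × ℝ)) (hK : K ⊆ X p c T)
    (hTK : T ×ˢ (Icc (0 : ℝ) 1 ×ˢ Icc (0 : ℝ) 1) ⊆ K) (x : K) (hx : x.1.1 ∈ T) :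
    ¬ LocalIndLE 1 x := by
  obtain ⟨_, h2, _⟩ := hK x.2
  apply lower K x (fun w => (x.1.1, w)) (by fun_prop) 1 one_pos
  · intro u hu v hv
    exact hTK ⟨hx, hu, hv⟩
  · intro u hu v hv u' hu' v' hv' he
    have e1 : (u, v) = (u', v') := congrArg Prod.snd he
    exact ⟨congrArg Prod.fst e1, congrArg Prod.snd e1⟩
  · exact h2.1
  · exact h2.2
  · rfl

/-- points over the complement of `T` lie on a small parallelogram -/
theorem lower_gap {p c : ℕ → ℝ × ℝ} {B : Set ℝ} (h : Data p c B) (T : Set ℝ) (hT : IsClosed T)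
    (hne : T.Nonempty) (hTI : T ⊆ Icc 0 1) (x : X p c T) (hx : x.1.1 ∉ T) : ¬ LocalIndLE 1 x := by
  obtain ⟨hx1, hx2, hx3⟩ := x.2
  have hpos : 0 < Metric.infDist x.1.1 T := (hT.notMem_iff_infDist_pos hne).1 hx
  -- a representation with positive level
  obtain ⟨n, l, m, hl, hm, hml, hml', hht, hpt⟩ : ∃ (n : ℕ) (l m : ℝ), 0 < l ∧ 0 ≤ m ∧ m ≤ l ∧
      m ≤ 1 - l ∧ Metric.infDist x.1.1 T = ht n l ∧ x.1.2 = pt p c n l m := by
    rcases hx3 with h3 | ⟨n, l, m, h1, h2, h3, h4⟩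
    · exact absurd h3 hx
    · have e1 : Metric.infDist x.1.1 T = ht n l := congrArg Prod.fst h4
      have e2 : x.1.2 = pt p c n l m := congrArg Prod.snd h4
      rcases eq_or_lt_of_le (h1.trans h2) with hl | hl
      · subst hl
        have hm : m = 0 := le_antisymm h2 h1
        subst hm
        refine ⟨n + 1, 1, 0, one_pos, le_rfl, zero_le_one, by norm_num, ?_, ?_⟩
        · rw [e1, ht_zero, ht_one]; push_cast; ring
        · rw [e2, pt_zero, pt_one]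
      · exact ⟨n, l, m, hl, h1, h2, h3, e1, e2⟩
  obtain ⟨t, htT, hdt⟩ := hT.exists_infDist_eq_dist hne x.1.1
  set d := Metric.infDist x.1.1 T with hd
  have htI := hTI htT
  have habs : |x.1.1 - t| = d := by rw [hdt, Real.dist_eq]
  set σ := (x.1.1 - t) / d with hσ
  have hσd : σ * d = x.1.1 - t := by rw [hσ, div_mul_cancel₀ _ hpos.ne']
  have hσabs : |σ| = 1 := by
    rw [hσ, abs_div, habs, abs_of_pos hpos, div_self hpos.ne']
  have hσ0 : σ ≠ 0 := by
    intro h0; rw [h0] at hσabs; simp at hσabs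
  -- the distance on the segment towards t
  have hdist : ∀ δ, 0 ≤ δ → δ ≤ d → Metric.infDist (t + σ * δ) T = δ := by
    intro δ h0 h1
    apply le_antisymm
    · apply (Metric.infDist_le_dist_of_mem htT).trans
      rw [Real.dist_eq, add_sub_cancel_left, abs_mul, hσabs, one_mul, abs_of_nonneg h0]
    · have h2 : Metric.infDist x.1.1 T ≤ Metric.infDist (t + σ * δ) T + dist x.1.1 (t + σ * δ) :=
        Metric.infDist_le_infDist_add_dist
      have h3 : x.1.1 - (t + σ * δ) = σ * (d - δ) := by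
        rw [mul_sub, hσd]; ring
      rw [Real.dist_eq, h3, abs_mul, hσabs, one_mul, abs_of_nonneg (by linarith)] at h2
      linarith
  have hI : ∀ δ, 0 ≤ δ → δ ≤ d → t + σ * δ ∈ Icc (0 : ℝ) 1 := by
    intro δ h0 h1
    have h2 : δ / d ≤ 1 := by rw [div_le_one hpos]; exact h1
    have h3 : 0 ≤ δ / d := div_nonneg h0 hpos.le
    have h4 : t + σ * δ = (1 - δ / d) * t + (δ / d) * x.1.1 := by
      rw [hσ]; field_simp; ring
    rw [h4]
    have h5 : 0 ≤ 1 - δ / d := by linarith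
    constructor
    · exact add_nonneg (mul_nonneg h5 htI.1) (mul_nonneg h3 hx1.1)
    · nlinarith [mul_le_mul_of_nonneg_left htI.2 h5, mul_le_mul_of_nonneg_left hx1.2 h3]
  have hmem : ∀ l' m', 0 ≤ m' → m' ≤ l' → m' ≤ 1 - l' → l' ≤ l →
      ((t + σ * ht n l', pt p c n l' m') : ℝ × ℝ × ℝ) ∈ X p c T := by
    intro l' m' h1 h2 h3 h4
    have h5 : ht n l' ≤ d := by rw [hht]; exact ht_le n h4
    have h6 : 0 ≤ ht n l' := (ht_pos n (h1.trans h2)).le
    refine ⟨hI _ h6 h5, ⟨?_, ?_⟩, Or.inr ⟨n, l', m', h1, h2, h3, ?_⟩⟩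
    · exact comb_mem (h.hp n).1 (h.hp (n + 1)).1 (h.hc n).1 h1 h2 h3
    · exact comb_mem (h.hp n).2 (h.hp (n + 1)).2 (h.hc n).2 h1 h2 h3
    · show (Metric.infDist (t + σ * ht n l') T, pt p c n l' m') = (ht n l', pt p c n l' m')
      rw [hdist _ h6 h5]
  have hinj : ∀ l1 m1 l2 m2, ((t + σ * ht n l1, pt p c n l1 m1) : ℝ × ℝ × ℝ) =
      (t + σ * ht n l2, pt p c n l2 m2) → l1 = l2 ∧ m1 = m2 := by
    intro l1 m1 l2 m2 he
    have e1 : t + σ * ht n l1 = t + σ * ht n l2 := congrArg Prod.fst he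
    have e2 : pt p c n l1 m1 = pt p c n l2 m2 := congrArg Prod.snd he
    have e3 : ht n l1 = ht n l2 := by
      apply mul_left_cancel₀ hσ0
      linarith
    have e4 := ht_inj n e3
    subst e4
    exact ⟨rfl, pt_inj h n _ _ _ e2⟩
  have hxe : ((t + σ * ht n l, pt p c n l m) : ℝ × ℝ × ℝ) = x.1 := by
    apply Prod.ext
    · show t + σ * ht n l = x.1.1
      rw [← hht, hσd]; ring
    · exact hpt.symm
  have hcont : ∀ (L M : ℝ × ℝ → ℝ), Continuous L → Continuous M →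
      Continuous (fun w : ℝ × ℝ => ((t + σ * ht n (L w), pt p c n (L w) (M w)) : ℝ × ℝ × ℝ)) := by
    intro L M hL hM
    apply Continuous.prodMk
    · exact continuous_const.add (continuous_const.mul ((ht_cont n).comp hL))
    · exact (pt_cont p c n).comp (hL.prodMk hM)
  rcases eq_or_lt_of_le hm with hm0 | hm0
  · -- the base of the triangle
    subst hm0
    apply lower (X p c T) x
      (fun w => (t + σ * ht n (l * (1 - w.1 - w.2)), pt p c n (l * (1 - w.1 - w.2)) (l * w.2)))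
      (hcont _ _ (by fun_prop) (by fun_prop)) (1 / 4) (by norm_num)
    · intro u hu v hv
      apply hmem
      · exact mul_nonneg hl.le hv.1
      · apply mul_le_mul_of_nonneg_left _ hl.le
        linarith [hu.2, hv.2]
      · have : l * (u + v) + l * v ≤ 1 - l + l * (u + v) + 1 * (u * 0) + l * v := by linarith
        nlinarith [hu.1, hv.1, mul_nonneg hl.le hu.1, mul_nonneg hl.le hv.1]
      · nlinarith [hu.1, hv.1, mul_nonneg hl.le hu.1, mul_nonneg hl.le hv.1]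
    · intro u hu v hv u' hu' v' hv' he
      obtain ⟨g1, g2⟩ := hinj _ _ _ _ he
      have g3 := mul_left_cancel₀ hl.ne' g1
      have g4 := mul_left_cancel₀ hl.ne' g2
      have g4' : v = v' := g4
      have g3' : 1 - u - v = 1 - u' - v' := g3
      exact ⟨by linarith, g4'⟩
    · exact (⟨le_rfl, by norm_num⟩ : (0 : ℝ) ∈ Icc (0 : ℝ) (1 / 4))
    · exact (⟨le_rfl, by norm_num⟩ : (0 : ℝ) ∈ Icc (0 : ℝ) (1 / 4))
    · rw [← hxe]
      have e1 : l * (1 - (0 : ℝ) - 0) = l := by ring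
      have e2 : l * (0 : ℝ) = 0 := by ring
      show ((t + σ * ht n (l * (1 - (0 : ℝ) - 0)), pt p c n (l * (1 - (0 : ℝ) - 0)) (l * 0)) : ℝ × ℝ × ℝ) = _
      rw [e1, e2]
  · apply lower (X p c T) x
      (fun w => (t + σ * ht n (l * (1 - w.1)), pt p c n (l * (1 - w.1)) (m * (1 - w.1 - w.2))))
      (hcont _ _ (by fun_prop) (by fun_prop)) (1 / 4) (by norm_num)
    · intro u hu v hv
      have h1 : 0 ≤ 1 - u - v := by linarith [hu.2, hv.2]
      have h2 : 0 ≤ 1 - u := by linarith [hu.2]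
      apply hmem
      · exact mul_nonneg hm h1
      · show m * (1 - u - v) ≤ l * (1 - u)
        exact mul_le_mul hml (by linarith [hv.1]) h1 hl.le
      · show m * (1 - u - v) ≤ 1 - l * (1 - u)
        nlinarith [mul_nonneg hm hu.1, mul_nonneg hm hv.1, mul_nonneg hl.le hu.1]
      · show l * (1 - u) ≤ l
        nlinarith [mul_nonneg hl.le hu.1]
    · intro u hu v hv u' hu' v' hv' he
      obtain ⟨g1, g2⟩ := hinj _ _ _ _ he
      have g3 : 1 - u = 1 - u' := mul_left_cancel₀ hl.ne' g1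
      have g4 : 1 - u - v = 1 - u' - v' := mul_left_cancel₀ hm0.ne' g2
      exact ⟨by linarith, by linarith⟩
    · exact (⟨le_rfl, by norm_num⟩ : (0 : ℝ) ∈ Icc (0 : ℝ) (1 / 4))
    · exact (⟨le_rfl, by norm_num⟩ : (0 : ℝ) ∈ Icc (0 : ℝ) (1 / 4))
    · rw [← hxe]
      have e1 : l * (1 - (0 : ℝ)) = l := by ring
      have e2 : m * (1 - (0 : ℝ) - 0) = m := by ring
      show ((t + σ * ht n (l * (1 - (0 : ℝ))), pt p c n (l * (1 - (0 : ℝ))) (m * (1 - (0 : ℝ) - 0))) : ℝ × ℝ × ℝ) = _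
      rw [e1, e2]

/-- every closed set mapped onto the interval contains everything over `T` -/
theorem forced {p c : ℕ → ℝ × ℝ} {B : Set ℝ} (h : Data p c B) (T : Set ℝ) (hT : IsClosed T)
    (hne : T.Nonempty) (hTI : T ⊆ Icc 0 1) (hint : interior T = ∅) (K : Set (ℝ × ℝ × ℝ))
    (hKX : K ⊆ X p c T) (hK : IsClosed K) (hf : Prod.fst '' K = Icc (0 : ℝ) 1) :
    T ×ˢ (Icc (0 : ℝ) 1 ×ˢ Icc (0 : ℝ) 1) ⊆ K := by
  rintro ⟨t, y⟩ ⟨htT, hy⟩
  have htT' : t ∈ T := htT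
  have htI := hTI htT'
  rw [← hK.closure_eq, Metric.mem_closure_iff]
  intro ε hε
  have hdense : Dense Tᶜ := interior_eq_empty_iff_dense_compl.1 hint
  obtain ⟨x, hxT, hxI, hxt⟩ : ∃ x, x ∉ T ∧ x ∈ Icc (0 : ℝ) 1 ∧ |x - t| < ε := by
    by_cases ht1 : t < 1
    · obtain ⟨x, hx, h1, h2⟩ := hdense.exists_between (show t < min (t + ε) 1 from lt_min (by linarith) ht1)
      have h3 := lt_min_iff.1 h2
      refine ⟨x, hx, ⟨by linarith [htI.1], h3.2.le⟩, ?_⟩
      rw [abs_lt]; constructor <;> linarith [h3.1]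
    · have ht1' : t = 1 := le_antisymm htI.2 (not_lt.1 ht1)
      obtain ⟨x, hx, h1, h2⟩ := hdense.exists_between (show max (t - ε) 0 < t from
        max_lt (by linarith) (by rw [ht1']; exact one_pos))
      have h3 := max_lt_iff.1 h1
      refine ⟨x, hx, ⟨h3.2.le, by linarith⟩, ?_⟩
      rw [abs_lt]; constructor <;> linarith [h3.1]
  have hpos : 0 < Metric.infDist x T := (hT.notMem_iff_infDist_pos hne).1 hxT
  obtain ⟨N, hN⟩ := exists_nat_one_div_lt hpos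
  obtain ⟨n, hnN, hn⟩ := h.cluster y hy.1 hy.2 ε hε N
  have hn1 : 1 / ((n : ℝ) + 1) ≤ 1 / ((N : ℝ) + 1) := by
    apply one_div_le_one_div_of_le (by positivity)
    have : (N : ℝ) ≤ n := by exact_mod_cast hnN
    linarith
  have hn0 : 0 < 1 / ((n : ℝ) + 1) := by positivity
  have hivt := intermediate_value_uIcc (f := fun s => Metric.infDist s T) (a := t) (b := x)
    (Metric.continuous_infDist_pt T).continuousOn
  have hmem : 1 / ((n : ℝ) + 1) ∈ uIcc (Metric.infDist t T) (Metric.infDist x T) := by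
    rw [Metric.infDist_zero_of_mem htT', uIcc_of_le hpos.le]
    exact ⟨hn0.le, by linarith⟩
  obtain ⟨x', hx', hx'd⟩ := hivt hmem
  have hx'd' : Metric.infDist x' T = 1 / ((n : ℝ) + 1) := hx'd
  have hx'I : x' ∈ Icc (0 : ℝ) 1 := by
    have h1 := uIcc_subset_Icc htI hxI
    exact h1 hx'
  have hx't : |x' - t| ≤ |x - t| := abs_sub_left_of_mem_uIcc hx'
  obtain ⟨P, hPK, hPx⟩ : ∃ P ∈ K, P.1 = x' := by
    rw [← hf] at hx'I
    obtain ⟨P, hP, hPx⟩ := hx'I
    exact ⟨P, hP, hPx⟩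
  refine ⟨P, hPK, ?_⟩
  obtain ⟨_, _, h3⟩ := hKX hPK
  rw [hPx] at h3
  have hP2 : P.2 = p n := by
    rcases h3 with h3 | ⟨m, hm⟩
    · rw [Metric.infDist_zero_of_mem h3] at hx'd'
      linarith
    · rw [hx'd'] at hm
      exact cell_top p c hm
  rw [dist_comm, Prod.dist_eq]
  apply max_lt
  · rw [hPx, Real.dist_eq]
    exact lt_of_le_of_lt hx't hxt
  · rw [hP2]; exact hn

theorem construction (T : Set ℝ) (hT : IsClosed T) (hne : T.Nonempty) (hTI : T ⊆ Icc 0 1)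
    (hint : interior T = ∅) : ∃ X : Set (ℝ × ℝ × ℝ), IsCompact X ∧ IsConnected X ∧
      (∀ x : X, TwoDimensionalAt x) ∧ Prod.fst '' X = Icc (0 : ℝ) 1 ∧
      (∀ t ∈ Icc (0 : ℝ) 1, IsConnected (X ∩ {P | P.1 = t})) ∧
      (∀ t ∈ T, X ∩ {P | P.1 = t} = {t} ×ˢ (Icc (0 : ℝ) 1 ×ˢ Icc (0 : ℝ) 1)) ∧
      ∀ K ⊆ X, IsClosed K → Prod.fst '' K = Icc (0 : ℝ) 1 →
        T ×ˢ (Icc (0 : ℝ) 1 ×ˢ Icc (0 : ℝ) 1) ⊆ K ∧
        (∀ x : K, x.1.1 ∈ T → TwoDimensionalAt x) ∧ ¬ IndLT 2 K := by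
  obtain ⟨p, c, B, h1, h2, h3, h4, h5⟩ := exists_data
  have h : Data p c B := ⟨h1, h2, h3, h4, h5⟩
  have hXc := X_compact p c T hT hne
  have himg : Prod.fst '' X p c T = Icc (0 : ℝ) 1 := by
    apply Subset.antisymm
    · rintro _ ⟨P, hP, rfl⟩; exact hP.1
    · intro x hx
      obtain ⟨P, hP, hPx⟩ := X_fst p c T hT hne hTI h.hp h.hc x hx
      exact ⟨P, hP, hPx⟩
  have hTX : T ×ˢ (Icc (0 : ℝ) 1 ×ˢ Icc (0 : ℝ) 1) ⊆ X p c T := by
    rintro ⟨t, y⟩ ⟨ht, hy⟩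
    exact ⟨hTI ht, hy, Or.inl ht⟩
  have h0 : (0 : ℝ) ∈ Icc (0 : ℝ) 1 := ⟨le_rfl, zero_le_one⟩
  refine ⟨X p c T, hXc, ⟨?_, conn_of_fibres _ hXc himg (X_fibre p c T)⟩, ?_, himg, ?_, ?_, ?_⟩
  · obtain ⟨P, hP, _⟩ := X_fst p c T hT hne hTI h.hp h.hc 0 h0
    exact ⟨P, hP⟩
  · intro x
    refine ⟨sub_two h T hint _ Subset.rfl x, ?_⟩
    by_cases hx : x.1.1 ∈ T
    · exact lower_T T _ Subset.rfl hTX x hx
    · exact lower_gap h T hT hne hTI x hx
  · intro t ht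
    refine ⟨?_, X_fibre p c T t⟩
    obtain ⟨P, hP, hPx⟩ := X_fst p c T hT hne hTI h.hp h.hc t ht
    exact ⟨P, hP, hPx⟩
  · intro t ht
    ext P
    constructor
    · rintro ⟨hP, hPt⟩
      exact ⟨hPt, hP.2.1⟩
    · rintro ⟨hPt, hP⟩
      have hPt' : P.1 = t := hPt
      refine ⟨hTX ⟨?_, hP⟩, hPt'⟩
      rw [hPt']; exact ht
  · intro K hKX hK hf
    have hTK := forced h T hT hne hTI hint K hKX hK hf
    have h2 : ∀ x : K, x.1.1 ∈ T → TwoDimensionalAt x := fun x hx =>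
      ⟨sub_two h T hint K hKX x, lower_T T K hKX hTK x hx⟩
    refine ⟨hTK, h2, ?_⟩
    intro hind
    obtain ⟨t, ht⟩ := hne
    have hmem : ((t, 0, 0) : ℝ × ℝ × ℝ) ∈ K := hTK ⟨ht, h0, h0⟩
    exact (h2 ⟨_, hmem⟩ ht).2 (hind ⟨_, hmem⟩)

/-- Every closed set of a suitable continuum, two-dimensional at each point, which is mapped onto
the interval is two-dimensional and contains two-cells.

First part: for every nonempty closed `T ⊆ [0, 1]` without interior there is a continuum `X` in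
three-space, two-dimensional at each point, such that the first coordinate maps `X` monotonely onto
`[0, 1]`, the fibre over each `t ∈ T` is a square, and every closed `K ⊆ X` mapped onto `[0, 1]`
contains all the fibres over `T`; so `K` is two-dimensional at each of their points.

Second part: in the form of the question.

Third part: three-space is needed. For a compact set in the plane there is always a closed set with
empty interior which is mapped onto the interval. -/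
theorem result :
    (∀ T : Set ℝ, IsClosed T → T.Nonempty → T ⊆ Icc 0 1 → interior T = ∅ →
      ∃ X : Set (ℝ × ℝ × ℝ), IsCompact X ∧ IsConnected X ∧
        (∀ x : X, TwoDimensionalAt x) ∧ Prod.fst '' X = Icc (0 : ℝ) 1 ∧
        (∀ t ∈ Icc (0 : ℝ) 1, IsConnected (X ∩ {P | P.1 = t})) ∧
        (∀ t ∈ T, X ∩ {P | P.1 = t} = {t} ×ˢ (Icc (0 : ℝ) 1 ×ˢ Icc (0 : ℝ) 1)) ∧
        ∀ K ⊆ X, IsClosed K → Prod.fst '' K = Icc (0 : ℝ) 1 →
          T ×ˢ (Icc (0 : ℝ) 1 ×ˢ Icc (0 : ℝ) 1) ⊆ K ∧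
          (∀ x : K, x.1.1 ∈ T → TwoDimensionalAt x) ∧ ¬ IndLT 2 K) ∧
    (∃ (X : Type) (_ : MetricSpace X) (_ : CompactSpace X) (_ : ConnectedSpace X)
      (f : X → unitInterval), (∀ x : X, TwoDimensionalAt x) ∧ Continuous f ∧
        Function.Surjective f ∧ (∀ t, IsConnected (f ⁻¹' {t})) ∧
        ∀ K : Set X, IsClosed K → f '' K = univ → ¬ IndLT 2 K ∧ ¬ IsTotallyDisconnected K) ∧
    (∀ X : Set (ℝ × ℝ), IsCompact X → ∀ f : ℝ × ℝ → ℝ, ContinuousOn f X →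
      f '' X = Icc (0 : ℝ) 1 →
        ∃ K ⊆ X, IsClosed K ∧ f '' K = Icc (0 : ℝ) 1 ∧ interior K = ∅) := by
  refine ⟨construction, ?_, Planar.planar⟩
  have hint : interior ({0} : Set ℝ) = ∅ := interior_singleton 0
  obtain ⟨X, hXc, hXcon, hX2, himg, hfib, hT, hK⟩ := construction {0} isClosed_singleton
    (singleton_nonempty 0) (by rintro _ rfl; exact ⟨le_rfl, zero_le_one⟩) hint
  have hcs : CompactSpace X := isCompact_iff_compactSpace.1 hXc
  have hcon : ConnectedSpace X := isConnected_iff_connectedSpace.1 hXcon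
  have hmem : ∀ x : X, x.1.1 ∈ Icc (0 : ℝ) 1 := fun x => by
    rw [← himg]; exact ⟨x.1, x.2, rfl⟩
  let f : X → unitInterval := fun x => ⟨x.1.1, hmem x⟩
  have hfc : Continuous f := Continuous.subtype_mk (continuous_fst.comp continuous_subtype_val) _
  refine ⟨X, inferInstance, hcs, hcon, f, hX2, hfc, ?_, ?_, ?_⟩
  · intro t
    have ht : (t : ℝ) ∈ Icc (0 : ℝ) 1 := t.2
    rw [← himg] at ht
    obtain ⟨P, hP, hPt⟩ := ht
    exact ⟨⟨P, hP⟩, Subtype.ext hPt⟩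
  · intro t
    have h1 : Subtype.val '' (f ⁻¹' {t}) = X ∩ {P | P.1 = (t : ℝ)} := by
      ext P
      constructor
      · rintro ⟨x, hx, rfl⟩
        exact ⟨x.2, congrArg Subtype.val hx⟩
      · rintro ⟨hP, hPt⟩
        exact ⟨⟨P, hP⟩, Subtype.ext hPt, rfl⟩
    have h2 := hfib t t.2
    rw [← h1] at h2
    refine ⟨h2.nonempty.of_image, ?_⟩
    exact Topology.IsInducing.subtypeVal.isPreconnected_image.1 h2.isPreconnected
  · intro K hKc hKf
    have hKval : IsClosed (Subtype.val '' K : Set (ℝ × ℝ × ℝ)) :=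
      (hKc.isCompact.image continuous_subtype_val).isClosed
    have hKsub : (Subtype.val '' K : Set (ℝ × ℝ × ℝ)) ⊆ X := by
      rintro _ ⟨x, _, rfl⟩; exact x.2
    have hKimg : Prod.fst '' (Subtype.val '' K : Set (ℝ × ℝ × ℝ)) = Icc (0 : ℝ) 1 := by
      apply Subset.antisymm
      · rintro _ ⟨_, ⟨x, _, rfl⟩, rfl⟩; exact hmem x
      · intro t ht
        have : (⟨t, ht⟩ : unitInterval) ∈ f '' K := by rw [hKf]; exact mem_univ _
        obtain ⟨x, hx, hxt⟩ := this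
        exact ⟨x.1, ⟨x, hx, rfl⟩, congrArg Subtype.val hxt⟩
    obtain ⟨h1, h2, h3⟩ := hK _ hKsub hKval hKimg
    have hsq : ∀ w : ℝ × ℝ, w.1 ∈ Icc (0 : ℝ) 1 → w.2 ∈ Icc (0 : ℝ) 1 →
        ∃ x ∈ K, x.1 = ((0, w) : ℝ × ℝ × ℝ) := by
      intro w hw1 hw2
      obtain ⟨x, hx, hxw⟩ := h1 (show ((0, w) : ℝ × ℝ × ℝ) ∈ _ from ⟨rfl, hw1, hw2⟩)
      exact ⟨x, hx, hxw⟩
    have h0 : (0 : ℝ) ∈ Icc (0 : ℝ) 1 := ⟨le_rfl, zero_le_one⟩
    have h11 : (1 : ℝ) ∈ Icc (0 : ℝ) 1 := ⟨zero_le_one, le_rfl⟩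
    have hsqX : ∀ w : ℝ × ℝ, w ∈ Icc (0 : ℝ) 1 ×ˢ Icc (0 : ℝ) 1 → ((0, w) : ℝ × ℝ × ℝ) ∈ X := by
      intro w hw
      exact hKsub (h1 ⟨rfl, hw⟩)
    constructor
    · intro hind
      apply h3
      exact indLT_homeo 2 _ _ (Topology.IsEmbedding.subtypeVal.homeomorphImage K) hind
    · intro htd
      let j : (Icc (0 : ℝ) 1 ×ˢ Icc (0 : ℝ) 1 : Set (ℝ × ℝ)) → X := fun w => ⟨(0, w.1), hsqX w.1 w.2⟩
      have hj : Continuous j := by
        apply Continuous.subtype_mk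
        exact continuous_const.prodMk continuous_subtype_val
      have hpc : IsPreconnected (j '' univ) := by
        apply IsPreconnected.image _ j hj.continuousOn
        exact (isPreconnected_iff_preconnectedSpace.1
          ((isPreconnected_Icc (a := (0 : ℝ)) (b := 1)).prod
            (isPreconnected_Icc (a := (0 : ℝ)) (b := 1)))).isPreconnected_univ
      have hjK : j '' univ ⊆ K := by
        rintro _ ⟨w, _, rfl⟩
        obtain ⟨x, hx, hxw⟩ := hsq w.1 w.2.1 w.2.2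
        have : j w = x := Subtype.ext hxw.symm
        rw [this]; exact hx
      have := htd (j '' univ) hjK hpc ⟨⟨(0, 0), h0, h0⟩, mem_univ _, rfl⟩
        ⟨⟨(1, 0), h11, h0⟩, mem_univ _, rfl⟩
      have h2 : (0 : ℝ) = 1 := congrArg (fun z : X => z.1.2.1) this
      norm_num at h2

end Pool.Agent.Results.MP_b0a983_gt.ForcedCells
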